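import Pool.Agent.H69.LQ.Lib
import Pool.Agent.H69.LQ.Targets1

/-!
# LQ1, row K4: the curl of the field
-/

set_option autoImplicit false

open MeasureTheory Metric Set
open scoped ENNReal
open Pool.Agent.H85.LK (E adm lam Ann)
open Pool.Agent.H69.LQ

namespace Pool.Agent.H64.LQ1

variable {N : ℕ}

/-- Fubini for continuous functions. -/
theorem fub {G : ℝ × Sp N → ℝ} (hG : Continuous G) {a b : ℝ} (hab : a ≤ b) :
    av (fun θ => ∫ r in a..b, G (r, θ)) = ∫ r in a..b, av (fun θ => G (r, θ)) := by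
  unfold av
  simp only [intervalIntegral.integral_of_le hab]
  have h1 : IntegrableOn G (Icc a b ×ˢ univ) ((volume : Measure ℝ).prod (mS N)) :=
    hG.continuousOn.integrableOn_compact (isCompact_Icc.prod isCompact_univ)
  have h2 : Integrable G (((volume : Measure ℝ).restrict (Ioc a b)).prod (mS N)) := by
    have h3 := h1.mono_set (prod_mono Ioc_subset_Icc_self Subset.rfl)
    rw [IntegrableOn, ← Measure.prod_restrict, Measure.restrict_univ] at h3
    exact h3
  exact (integral_integral_swap (f := fun (r : ℝ) (θ : Sp N) => G (r, θ)) h2).symm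

/-- the integrand on the rays -/
noncomputable def WW (f : E N → ℝ) (x : E N) (i j : Fin N) (q : ℝ × Sp N) : ℝ :=
  (q.2 : E N) j * pd i f (x - q.1 • (q.2 : E N)) - (q.2 : E N) i * pd j f (x - q.1 • (q.2 : E N))

theorem pd_cont {f : E N → ℝ} (hf : ContDiff ℝ (⊤ : ℕ∞) f) (i : Fin N) : Continuous (pd i f) := by
  have h : Continuous (fderiv ℝ f) := hf.continuous_fderiv (by simp)
  unfold pd
  fun_prop

theorem WW_cont {f : E N → ℝ} (hf : ContDiff ℝ (⊤ : ℕ∞) f) (x : E N) (i j : Fin N) :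
    Continuous (WW f x i j) := by
  have h1 := pd_cont hf i
  have h2 := pd_cont hf j
  have h3 : Continuous fun q : ℝ × Sp N => x - q.1 • (q.2 : E N) :=
    continuous_const.sub (continuous_fst.smul (continuous_subtype_val.comp continuous_snd))
  have h4 : ∀ k : Fin N, Continuous fun q : ℝ × Sp N => (q.2 : E N) k := fun k => by fun_prop
  exact ((h4 j).mul (h1.comp h3)).sub ((h4 i).mul (h2.comp h3))

theorem av_WW (hAN : T_AN) (hN : 2 ≤ N) {f : E N → ℝ} (hf : ContDiff ℝ (⊤ : ℕ∞) f) (x : E N)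
    (i j : Fin N) (r : ℝ) (hr : r ≠ 0) : av (fun θ : Sp N => WW f x i j (r, θ)) = 0 := by
  have hF : ContDiff ℝ (⊤ : ℕ∞) (fun y : E N => f (x - r • y)) :=
    hf.comp (contDiff_const.sub (contDiff_id.const_smul r))
  have h1 := hAN N (fun y : E N => f (x - r • y)) i j hN hF
  have hd : ∀ (y : E N) (v : E N), fderiv ℝ (fun y : E N => f (x - r • y)) y v =
      -(r * fderiv ℝ f (x - r • y) v) := by
    intro y v
    have h2 : HasFDerivAt (fun y : E N => x - r • y)
        (-(r • ContinuousLinearMap.id ℝ (E N))) y := by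
      have h3 := ((hasFDerivAt_id (𝕜 := ℝ) y).const_smul r).const_sub x
      exact h3
    have h4 : HasFDerivAt f (fderiv ℝ f (x - r • y)) (x - r • y) :=
      (hf.differentiable (by simp) _).hasFDerivAt
    have h5 := h4.comp y h2
    have h6 : fderiv ℝ (fun y : E N => f (x - r • y)) y =
        (fderiv ℝ f (x - r • y)).comp (-(r • ContinuousLinearMap.id ℝ (E N))) := h5.fderiv
    rw [h6]
    simp
  have h7 : (fun θ : Sp N => LL i j (fun y : E N => f (x - r • y)) (θ : E N)) =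
      fun θ => r * WW f x i j (r, θ) := by
    funext θ
    unfold LL WW pd
    rw [hd, hd]
    ring
  rw [h7, av_const_mul] at h1
  exact (mul_eq_zero.1 h1).resolve_left hr

theorem pf_K4 (hMP : T_MP) (hMC : T_MC) (hAN : T_AN) (hK2 : T_K2) : T_K4 := by
  have _ := hMC
  intro N f x i j hN hf hfc
  obtain ⟨-, har, -, hpol⟩ := hMP N hN
  obtain ⟨hi1, hi2⟩ := (hK2 N f j hN hf hfc).2 i x
  obtain ⟨hj1, hj2⟩ := (hK2 N f i hN hf hfc).2 j x
  rw [hi2, hj2, ← sub_eq_zero, ← integral_sub hi1 hj1]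
  have hpol' := (hpol _ (hi1.sub hj1)).2.2
  have hpol2 : (∫ y, kn j y * pd i f (x - y) - kn i y * pd j f (x - y)) =
      ar N * av fun θ : Sp N => ∫ r in Ioi (0 : ℝ), r ^ (N - 1) *
        (kn j (r • (θ : E N)) * pd i f (x - r • (θ : E N)) -
          kn i (r • (θ : E N)) * pd j f (x - r • (θ : E N))) := hpol'
  rw [hpol2]
  -- the radius
  obtain ⟨R, hR⟩ : ∃ R : ℝ, ∀ y, fderiv ℝ f y ≠ 0 → ‖y‖ ≤ R := by
    obtain ⟨R, hR⟩ := (hfc.fderiv (𝕜 := ℝ)).isBounded.exists_norm_le
    exact ⟨R, fun y hy => hR y (subset_tsupport _ hy)⟩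
  obtain ⟨M, hM⟩ : ∃ M : ℝ, M = |R| + ‖x‖ + 1 := ⟨_, rfl⟩
  have hM0 : 0 ≤ M := by rw [hM]; positivity
  have hzero : ∀ (r : ℝ) (θ : Sp N) (k : Fin N), M < r → pd k f (x - r • (θ : E N)) = 0 := by
    intro r θ k hr
    by_contra h
    have h1 : fderiv ℝ f (x - r • (θ : E N)) ≠ 0 := by
      intro h2
      apply h
      unfold pd
      rw [h2]
      rfl
    have h2 := hR _ h1
    have h3 : ‖r • (θ : E N)‖ ≤ ‖x - r • (θ : E N)‖ + ‖x‖ := by
      have h4 : r • (θ : E N) = x - (x - r • (θ : E N)) := by abel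
      rw [h4]
      refine (norm_sub_le _ _).trans (le_of_eq ?_)
      rw [sub_sub_cancel, add_comm]
    rw [norm_smul_sp, abs_of_nonneg (hM0.trans hr.le)] at h3
    have h5 := le_abs_self R
    linarith
  have hkn : ∀ (r : ℝ) (θ : Sp N) (k : Fin N), 0 < r →
      r ^ (N - 1) * kn k (r • (θ : E N)) = (ar N)⁻¹ * (θ : E N) k := by
    intro r θ k hr
    unfold kn
    rw [norm_smul_sp, abs_of_pos hr]
    have h1 : (r • (θ : E N)) k = r * (θ : E N) k := rfl
    rw [h1]
    obtain ⟨n, rfl⟩ : ∃ n, N = n + 1 := ⟨N - 1, by omega⟩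
    rw [Nat.add_sub_cancel]
    have h2 : r ≠ 0 := hr.ne'
    have h3 : ar (n + 1) ≠ 0 := har.ne'
    field_simp
    ring
  have hint : ∀ θ : Sp N, (∫ r in Ioi (0 : ℝ), r ^ (N - 1) *
        (kn j (r • (θ : E N)) * pd i f (x - r • (θ : E N)) -
          kn i (r • (θ : E N)) * pd j f (x - r • (θ : E N)))) =
      ∫ r in (0 : ℝ)..M, (ar N)⁻¹ * WW f x i j (r, θ) := by
    intro θ
    have h1 : (∫ r in Ioi (0 : ℝ), r ^ (N - 1) *
        (kn j (r • (θ : E N)) * pd i f (x - r • (θ : E N)) -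
          kn i (r • (θ : E N)) * pd j f (x - r • (θ : E N)))) =
        ∫ r in Ioi (0 : ℝ), (ar N)⁻¹ * WW f x i j (r, θ) := by
      refine setIntegral_congr_fun measurableSet_Ioi fun r hr => ?_
      have h2 := hkn r θ j hr
      have h3 := hkn r θ i hr
      show r ^ (N - 1) * (kn j (r • (θ : E N)) * pd i f (x - r • (θ : E N)) -
          kn i (r • (θ : E N)) * pd j f (x - r • (θ : E N))) = (ar N)⁻¹ *
        ((θ : E N) j * pd i f (x - r • (θ : E N)) - (θ : E N) i * pd j f (x - r • (θ : E N)))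
      calc r ^ (N - 1) * (kn j (r • (θ : E N)) * pd i f (x - r • (θ : E N)) -
          kn i (r • (θ : E N)) * pd j f (x - r • (θ : E N)))
          = (r ^ (N - 1) * kn j (r • (θ : E N))) * pd i f (x - r • (θ : E N)) -
            (r ^ (N - 1) * kn i (r • (θ : E N))) * pd j f (x - r • (θ : E N)) := by ring
        _ = _ := by
          rw [h2, h3]
          ring
    rw [h1, intervalIntegral.integral_of_le hM0]
    refine setIntegral_eq_of_subset_of_forall_sdiff_eq_zero measurableSet_Ioi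
      (fun r hr => hr.1) ?_
    rintro r ⟨hr1, hr2⟩
    have hr3 : M < r := by
      by_contra h
      exact hr2 ⟨hr1, not_lt.1 h⟩
    show (ar N)⁻¹ * ((θ : E N) j * pd i f (x - r • (θ : E N)) -
      (θ : E N) i * pd j f (x - r • (θ : E N))) = 0
    rw [hzero r θ i hr3, hzero r θ j hr3]
    ring
  simp only [hint]
  rw [fub (G := fun q => (ar N)⁻¹ * WW f x i j q)
    (continuous_const.mul (WW_cont hf x i j)) hM0]
  have hz : ∫ r in (0 : ℝ)..M, av (fun θ : Sp N => (ar N)⁻¹ * WW f x i j (r, θ)) = 0 := by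
    rw [intervalIntegral.integral_of_le hM0]
    rw [setIntegral_congr_fun (g := fun _ => (0 : ℝ)) measurableSet_Ioc fun r hr => ?_]
    · simp
    · show av (fun θ : Sp N => (ar N)⁻¹ * WW f x i j (r, θ)) = 0
      rw [av_const_mul, av_WW hAN hN hf x i j r hr.1.ne', mul_zero]
  rw [hz, mul_zero]

end Pool.Agent.H64.LQ1
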